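import Pool.Agent.H64.AO.Few
import Pool.Agent.H98.STB.Chn
import Pool.Agent.H55.GEN.W2
import Pool.Agent.H98.STB.Pass

/-!
# The slope polynomial of a line from two ends

`two_ends`: on each line a polynomial `mu` of the time is given. If its value at a full time is few
bits given the near data `q` at this time (and `y`), and the near data at a second time of the line
are few bits given the record `A` of the first sample, then the coefficients of `mu` are few bits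
given `A`.

`two_ends_val`: the same if the value is a code `c` which is near the value of the polynomial.
-/

set_option autoImplicit false

namespace Pool.HL77

open Finset Real
open Pool.Agent.H49.Ent Pool.Agent.H32.Dense Pool.STK
open Pool.BFL (Pb)

/-- **Two ends.** The coefficients of the slope polynomial of the line are few bits given the record
`A` of one sample. -/
theorem two_ends (K : ℕ) {CM C δ ε : ℝ} (hCM : 0 ≤ CM) (hC : 0 ≤ C) (hδ : 0 < δ) (hε : 0 < ε) :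
    ∃ κ : ℝ, 0 < κ ∧ ∃ X₀ : ℕ, ∀ {Ω Λ 𝒜 Y Q : Type} [Fintype Ω] {p : Ω → ℝ} (_ : IsLaw p)
      (L : Ω → Λ) (t : Ω → ℤ) (A : Ω → 𝒜) (y : Ω → Y) (q : Ω → Q) (mu : Λ → Polynomial ℝ)
      {X : ℕ} {M e : ℝ}, Det p A y → Det p L y →
      (∀ ω, 0 < p ω → 0 ≤ t ω ∧ t ω < 2 ^ X) → (∀ ω, 0 < p ω → (mu (L ω)).natDegree ≤ K) →
      (∀ ω, 0 < p ω → ∀ i, |(mu (L ω)).coeff i| ≤ C) → X₀ ≤ X → M ≤ CM * X → e ≤ κ * X →
      X * Real.log 2 - e ≤ CH p t L →
      CH p (fun ω => ⌊(2 : ℝ) ^ M * (mu (L ω)).eval ((t ω : ℝ) / 2 ^ X)⌋)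
        (fun ω => (t ω, (y ω, q ω))) ≤ e →
      CH (glue p p L L) (fun w => q w.2) (fun w => (t w.2, A w.1)) ≤ e →
      CH p (fun ω (a : Fin (K + 1)) => ⌊(2 : ℝ) ^ (M - δ * X) * (mu (L ω)).coeff a⌋) A ≤
        ε * X := by
  obtain ⟨κ, hκ, X₀, h⟩ := Pool.AO64.ao_few K hCM hC hδ hε
  refine ⟨κ / 2, by positivity, X₀, ?_⟩
  intro Ω Λ 𝒜 Y Q _ p hp L t A y q mu X M e hAy hLy ht hd hCc hX hM he hfull hc hq
  have h0 := hp.nonneg
  have gl : IsLaw (glue p p L L) := Pool.STB.glueLaw' hp hp (X := L) (Y := L) fun _ => rfl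
  have g0 := gl.nonneg
  have mf := marg_fst (Z₁ := L) (Z₂ := L) h0 fun _ => rfl
  have ms := marg_snd (Z₁ := L) (Z₂ := L) h0 fun _ => rfl
  have gp : ∀ w : Ω × Ω, 0 < glue p p L L w → 0 < p w.1 ∧ 0 < p w.2 ∧ L w.1 = L w.2 := fun w hw =>
    (glue_pos_iff h0 h0 w).1 hw
  have e0 : 0 ≤ e := (CH_nonneg g0 _ _).trans hq
  have hX0 : (0 : ℝ) ≤ X := Nat.cast_nonneg _
  have r1 : CH p t L = CH (glue p p L L) (fun w => t w.2) (fun w => w.1) :=
    (Pool.DY1.CH_glue (Z₁ := L) (Z₂ := L) (A := fun w : Ω => w) h0 h0 (fun _ => rfl)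
      (fun w w' _ _ h => by
        have h' : w = w' := h
        rw [h']) t).symm
  have main := h gl (fun w => w.1) (fun w => A w.1) (fun w => t w.2) (fun w => mu (L w.1))
    (X := X) (M := M) (e := 2 * e) (fun w w' _ _ e => congrArg A e)
    (fun w w' _ _ e => congrArg (fun ω => mu (L ω)) e) (fun w hw => ht _ (gp w hw).2.1)
    (fun w hw => hd _ (gp w hw).1) (fun w hw => hCc _ (gp w hw).1) hX hM (by linarith)
    (by rw [← r1]; linarith) ?_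
  · refine le_trans (le_of_eq ?_) main
    exact (mf.CH (fun ω (a : Fin (K + 1)) => ⌊(2 : ℝ) ^ (M - δ * X) * (mu (L ω)).coeff a⌋) A).symm
  · -- the value at the second time
    obtain ⟨val, hval⟩ : ∃ val : Ω × Ω → ℤ, val = fun w =>
      ⌊(2 : ℝ) ^ M * (mu (L w.1)).eval ((t w.2 : ℝ) / 2 ^ X)⌋ := ⟨_, rfl⟩
    have k0 := CH_le_add g0 val (fun w => q w.2) (fun w => (t w.2, A w.1))
    have k1 : CH (glue p p L L) val (fun w => (q w.2, (t w.2, A w.1))) ≤ e := by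
      have k2 := ms.CH (fun ω => ⌊(2 : ℝ) ^ M * (mu (L ω)).eval ((t ω : ℝ) / 2 ^ X)⌋)
        (fun ω => (t ω, (y ω, q ω)))
      refine le_trans ?_ (k2.le.trans hc)
      have k3 : CH (glue p p L L) val (fun w => (q w.2, (t w.2, A w.1))) ≤
          CH (glue p p L L) (fun w => ⌊(2 : ℝ) ^ M * (mu (L w.2)).eval ((t w.2 : ℝ) / 2 ^ X)⌋)
            (fun w => (q w.2, (t w.2, A w.1))) := CH_mono_left g0 fun w w' hw hw' e => by
        rw [hval]
        simp only [Prod.mk.injEq] at e ⊢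
        rw [(gp w hw).2.2, (gp w' hw').2.2]
        exact e.1
      refine k3.trans (CH_mono_cond g0 fun w w' hw hw' e => ?_)
      simp only [Prod.mk.injEq] at e ⊢
      refine ⟨e.2.1, ?_, e.1⟩
      have a1 : y w.1 = y w'.1 := hAy _ _ (gp w hw).1 (gp w' hw').1 e.2.2
      have a2 : y w.1 = y w.2 := hLy _ _ (gp w hw).1 (gp w hw).2.1 (gp w hw).2.2
      have a3 : y w'.1 = y w'.2 := hLy _ _ (gp w' hw').1 (gp w' hw').2.1 (gp w' hw').2.2
      rw [← a2, ← a3, a1]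
    rw [hval] at k0 k1
    linarith

/-- **Two ends**, with a code `c` near the value of the slope polynomial. -/
theorem two_ends_val (K : ℕ) {CM C δ ε : ℝ} (hCM : 0 ≤ CM) (hC : 0 ≤ C) (hδ : 0 < δ)
    (hε : 0 < ε) : ∃ κ : ℝ, 0 < κ ∧ ∃ X₀ : ℕ, ∀ {Ω Λ 𝒜 Y Q : Type} [Fintype Ω] {p : Ω → ℝ}
      (_ : IsLaw p) (L : Ω → Λ) (t : Ω → ℤ) (A : Ω → 𝒜) (y : Ω → Y) (q : Ω → Q)
      (mu : Λ → Polynomial ℝ) (c : Ω → ℤ) {X : ℕ} {M e D : ℝ}, Det p A y → Det p L y →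
      (∀ ω, 0 < p ω → 0 ≤ t ω ∧ t ω < 2 ^ X) → (∀ ω, 0 < p ω → (mu (L ω)).natDegree ≤ K) →
      (∀ ω, 0 < p ω → ∀ i, |(mu (L ω)).coeff i| ≤ C) → X₀ ≤ X → M ≤ CM * X → 0 ≤ D →
      e + Real.log (2 * D + 2) ≤ κ * X → X * Real.log 2 - e ≤ CH p t L →
      (∀ ω, 0 < p ω → |(c ω : ℝ) - (2 : ℝ) ^ M * (mu (L ω)).eval ((t ω : ℝ) / 2 ^ X)| ≤ D) →
      CH p c (fun ω => (t ω, (y ω, q ω))) ≤ e →
      CH (glue p p L L) (fun w => q w.2) (fun w => (t w.2, A w.1)) ≤ e →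
      CH p (fun ω (a : Fin (K + 1)) => ⌊(2 : ℝ) ^ (M - δ * X) * (mu (L ω)).coeff a⌋) A ≤
        ε * X := by
  obtain ⟨κ, hκ, X₀, h⟩ := two_ends K hCM hC hδ hε
  refine ⟨κ, hκ, X₀, ?_⟩
  intro Ω Λ 𝒜 Y Q _ p hp L t A y q mu c X M e D hAy hLy ht hd hCc hX hM hD he hfull hv hc hq
  have h0 := hp.nonneg
  have hl : 0 ≤ Real.log (2 * D + 2) := Real.log_nonneg (by linarith)
  refine h hp L t A y q mu hAy hLy ht hd hCc hX hM he (by linarith) ?_ (by linarith)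
  obtain ⟨val, hval⟩ : ∃ val : Ω → ℤ, val = fun ω =>
    ⌊(2 : ℝ) ^ M * (mu (L ω)).eval ((t ω : ℝ) / 2 ^ X)⌋ := ⟨_, rfl⟩
  rw [← hval]
  have k0 := CH_le_add h0 val c (fun ω => (t ω, (y ω, q ω)))
  have k1 : CH p val (fun ω => (c ω, (t ω, (y ω, q ω)))) ≤ Real.log (2 * D + 1 + 1) := by
    refine Pool.STB.cnt_int hp _ _ (by linarith) fun ω ω' a b e => ?_
    have e1 : c ω = c ω' := congrArg Prod.fst e
    rw [hval]
    beta_reduce
    have v1 := abs_le.1 (hv ω a)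
    have v2 := abs_le.1 (hv ω' b)
    rw [← e1] at v2
    have f1 := Int.floor_le ((2 : ℝ) ^ M * (mu (L ω)).eval ((t ω : ℝ) / 2 ^ X))
    have f2 := Int.lt_floor_add_one ((2 : ℝ) ^ M * (mu (L ω)).eval ((t ω : ℝ) / 2 ^ X))
    have f3 := Int.floor_le ((2 : ℝ) ^ M * (mu (L ω')).eval ((t ω' : ℝ) / 2 ^ X))
    have f4 := Int.lt_floor_add_one ((2 : ℝ) ^ M * (mu (L ω')).eval ((t ω' : ℝ) / 2 ^ X))
    rw [abs_le]
    constructor <;> linarith [v1.1, v1.2, v2.1, v2.2]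
  have e2 : 2 * D + 1 + 1 = 2 * D + 2 := by ring
  rw [e2] at k1
  linarith

end Pool.HL77
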